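import Mathlib

/-!
# The polynomial Hales-Jewett theorem: boards

A cell is a tuple of length `D` some of whose entries may be missing (`none`); so tuples of all
lengths `≤ D` are treated at the same time. The shape of a cell is the set of the places of the
entries which are not missing.
-/

set_option autoImplicit false

namespace Pool.Agent.Y613.PJ

open Finset

/-- cells -/
abbrev Cell (D : ℕ) (ι : Type) : Type := Fin D → Option ι

/-- boards -/
abbrev Board (D : ℕ) (ι Λ : Type) : Type := Cell D ι → Λ

variable {D : ℕ} {ι ι₁ ι₂ Λ κ : Type}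

/-- the set of the places of the entries which are not missing -/
def shape (x : Cell D ι) : Finset (Fin D) := {i | (x i).isSome}

/-- all entries are in `γ` -/
def In (γ : Set ι) (x : Cell D ι) : Prop := ∀ i, ∀ y ∈ x i, y ∈ γ

/-- the cell is not empty and has its entries in `γ` -/
def Live (γ : Set ι) (x : Cell D ι) : Prop := (shape x).Nonempty ∧ In γ x

open Classical in
/-- the cells over `γ` get the letters of the direction `v` -/
noncomputable def move (a : Board D ι Λ) (γ : Set ι) (v : Finset (Fin D) → Λ) : Board D ι Λ :=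
  fun x => if Live γ x then v (shape x) else a x

/-- the part in `ι₁` -/
def fst (x : Cell D (ι₁ ⊕ ι₂)) : Cell D ι₁ := fun i => (x i).bind Sum.getLeft?

/-- the part in `ι₂` -/
def snd (x : Cell D (ι₁ ⊕ ι₂)) : Cell D ι₂ := fun i => (x i).bind Sum.getRight?

theorem mem_shape {x : Cell D ι} {i : Fin D} : i ∈ shape x ↔ ∃ y, x i = some y := by
  simp [shape, Option.isSome_iff_exists]

theorem shape_eq (x : Cell D (ι₁ ⊕ ι₂)) : shape x = shape (snd x) ∪ shape (fst x) := by
  ext i
  rw [mem_union, mem_shape, mem_shape, mem_shape]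
  unfold fst snd
  rcases h : x i with _ | (y | y) <;> simp

theorem shape_disjoint (x : Cell D (ι₁ ⊕ ι₂)) : Disjoint (shape (snd x)) (shape (fst x)) := by
  rw [Finset.disjoint_left]
  intro i
  rw [mem_shape, mem_shape]
  unfold fst snd
  rcases h : x i with _ | (y | y) <;> simp

theorem In_iff (γ : Set ι₁) (Γ : Set ι₂) (x : Cell D (ι₁ ⊕ ι₂)) :
    In (Sum.inl '' γ ∪ Sum.inr '' Γ) x ↔ In γ (fst x) ∧ In Γ (snd x) := by
  unfold In fst snd
  constructor
  · intro h
    refine ⟨fun i y hy => ?_, fun i y hy => ?_⟩
    · rcases hx : x i with _ | (z | z)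
      · rw [hx] at hy; simp at hy
      · rw [hx] at hy
        have := h i _ (by rw [hx]; rfl)
        simp at hy this
        rw [← hy]; exact this
      · rw [hx] at hy; simp at hy
    · rcases hx : x i with _ | (z | z)
      · rw [hx] at hy; simp at hy
      · rw [hx] at hy; simp at hy
      · rw [hx] at hy
        have := h i _ (by rw [hx]; rfl)
        simp at hy this
        rw [← hy]; exact this
  · rintro ⟨h1, h2⟩ i y hy
    rcases y with y | y
    · left
      exact ⟨y, h1 i y (by rw [hy]; rfl), rfl⟩
    · right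
      exact ⟨y, h2 i y (by rw [hy]; rfl), rfl⟩

theorem In_of_shape {γ : Set ι} {x : Cell D ι} (h : shape x = ∅) : In γ x := by
  intro i y hy
  have : i ∈ shape x := mem_shape.2 ⟨y, hy⟩
  rw [h] at this
  simp at this

theorem shape_of_In_empty {x : Cell D ι} (h : In ∅ x) : shape x = ∅ := by
  rw [Finset.eq_empty_iff_forall_notMem]
  intro i hi
  obtain ⟨y, hy⟩ := mem_shape.1 hi
  exact (h i y hy).elim

theorem not_live_empty (x : Cell D ι) : ¬ Live ∅ x := by
  rintro ⟨h1, h2⟩
  rw [shape_of_In_empty h2] at h1
  simp at h1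

theorem move_empty (a : Board D ι Λ) (v : Finset (Fin D) → Λ) : move a ∅ v = a := by
  funext x
  unfold move
  rw [if_neg (not_live_empty x)]

theorem move_self (a : Board D ι Λ) (γ : Set ι) (v : Finset (Fin D) → Λ)
    (h : ∀ x, Live γ x → a x = v (shape x)) : move a γ v = a := by
  funext x
  unfold move
  split_ifs with h1
  · exact (h x h1).symm
  · rfl

open Classical in
/-- the board with the given parts -/
noncomputable def glue (B : Board D ι₁ Λ) (W : Board D ι₂ (Board D ι₁ Λ)) :
    Board D (ι₁ ⊕ ι₂) Λ :=
  fun x => if shape (snd x) = ∅ then B (fst x) else W (snd x) (fst x)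

open Classical in
/-- the direction for the second part -/
noncomputable def up (t v : Finset (Fin D) → Λ) (γ : Set ι₁) :
    Finset (Fin D) → Board D ι₁ Λ :=
  fun J y => if Disjoint J (shape y) ∧ In γ y then v (J ∪ shape y) else t (J ∪ shape y)

theorem up_self (t : Finset (Fin D) → Λ) (γ : Set ι₁) (J : Finset (Fin D)) (y : Cell D ι₁) :
    up t t γ J y = t (J ∪ shape y) := by
  unfold up
  rw [ite_self]

theorem glue_move (t v : Finset (Fin D) → Λ) (a : Board D ι₁ Λ) (W : Board D ι₂ (Board D ι₁ Λ))
    (γ : Set ι₁) (Γ : Set ι₂) :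
    move (glue a (move W Γ (up t t ∅))) (Sum.inl '' γ ∪ Sum.inr '' Γ) v =
      glue (move a γ v) (move W Γ (up t v γ)) := by
  classical
  funext x
  by_cases h0 : shape (snd x) = ∅
  · have h1 : Live (Sum.inl '' γ ∪ Sum.inr '' Γ) x ↔ Live γ (fst x) := by
      unfold Live
      rw [In_iff, shape_eq, h0, Finset.empty_union]
      exact ⟨fun h => ⟨h.1, h.2.1⟩, fun h => ⟨h.1, h.2, In_of_shape h0⟩⟩
    unfold move glue
    simp only [h0, if_true, h1]
    rw [shape_eq x, h0, Finset.empty_union]
  · have hne : (shape (snd x)).Nonempty := Finset.nonempty_iff_ne_empty.2 h0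
    have h1 : Live (Sum.inl '' γ ∪ Sum.inr '' Γ) x ↔ In γ (fst x) ∧ In Γ (snd x) := by
      unfold Live
      rw [In_iff, shape_eq]
      exact ⟨fun h => h.2, fun h => ⟨hne.mono Finset.subset_union_left, h⟩⟩
    have h2 : Live Γ (snd x) ↔ In Γ (snd x) := ⟨fun h => h.2, fun h => ⟨hne, h⟩⟩
    by_cases h3 : In Γ (snd x)
    · by_cases h4 : In γ (fst x)
      · have e1 : move (glue a (move W Γ (up t t ∅))) (Sum.inl '' γ ∪ Sum.inr '' Γ) v x =
            v (shape x) := by
          unfold move
          rw [if_pos (h1.2 ⟨h4, h3⟩)]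
        have e2 : glue (move a γ v) (move W Γ (up t v γ)) x = v (shape (snd x) ∪ shape (fst x)) := by
          unfold glue
          rw [if_neg h0]
          unfold move
          rw [if_pos (h2.2 h3)]
          unfold up
          rw [if_pos ⟨shape_disjoint x, h4⟩]
        rw [e1, e2, shape_eq]
      · have e1 : move (glue a (move W Γ (up t t ∅))) (Sum.inl '' γ ∪ Sum.inr '' Γ) v x =
            t (shape (snd x) ∪ shape (fst x)) := by
          rw [move, if_neg (fun h => h4 (h1.1 h).1), glue, if_neg h0, move, if_pos (h2.2 h3),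
            up_self]
        have e2 : glue (move a γ v) (move W Γ (up t v γ)) x =
            t (shape (snd x) ∪ shape (fst x)) := by
          rw [glue, if_neg h0, move, if_pos (h2.2 h3), up, if_neg (fun h => h4 h.2)]
        rw [e1, e2]
    · rw [move, if_neg (fun h => h3 (h1.1 h).2), glue, if_neg h0, move,
        if_neg (fun h => h3 (h2.1 h)), glue, if_neg h0, move, if_neg (fun h => h3 (h2.1 h))]

/-- only the first part is changed -/
theorem glue_move_left (v : Finset (Fin D) → Λ) (a : Board D ι₁ Λ)
    (W : Board D ι₂ (Board D ι₁ Λ)) (γ : Set ι₁) :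
    move (glue a W) (Sum.inl '' γ) v = glue (move a γ v) W := by
  have := glue_move v v a W γ ∅
  rw [move_empty, move_empty, Set.image_empty, Set.union_empty] at this
  exact this

/-- only the second part is changed -/
theorem glue_move_right (t v : Finset (Fin D) → Λ) (a : Board D ι₁ Λ)
    (W : Board D ι₂ (Board D ι₁ Λ)) (Γ : Set ι₂) :
    move (glue a (move W Γ (up t t ∅))) (Sum.inr '' Γ) v = glue a (move W Γ (up t v ∅)) := by
  have := glue_move t v a W ∅ Γ
  rw [move_empty, Set.image_empty, Set.empty_union] at this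
  exact this

end Pool.Agent.Y613.PJ
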