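import Mathlib

/-!
# Counting words with few good blocks
-/

set_option autoImplicit false
set_option linter.unusedSectionVars false

namespace Pool.Agent.Y613.PJ

open Finset

section

variable {b : ℕ} {C R : Type} [Fintype C] [Fintype R] [DecidableEq C] [DecidableEq R]

/-- configurations: `b` blocks and the rest -/
abbrev Conf (b : ℕ) (C R : Type) : Type := (Fin b × C) ⊕ R → Bool

/-- the contents of a block -/
def cont (z : Conf b C R) (k : Fin b) : C → Bool := fun c => z (Sum.inl (k, c))

/-- the rest -/
def out (z : Conf b C R) : R → Bool := fun r => z (Sum.inr r)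

/-- the number of the blocks with the prescribed contents -/
def hits (a : (R → Bool) → Fin b → C → Bool) (z : Conf b C R) : ℕ :=
  #{k | cont z k = a (out z) k}

/-- change the contents of a block -/
def put (z : Conf b C R) (k : Fin b) (u : C → Bool) : Conf b C R := fun s =>
  match s with
  | Sum.inl (j, c) => if j = k then u c else z (Sum.inl (j, c))
  | Sum.inr r => z (Sum.inr r)

theorem cont_put (z : Conf b C R) (k : Fin b) (u : C → Bool) : cont (put z k u) k = u := by
  funext c
  simp [cont, put]

theorem out_put (z : Conf b C R) (k : Fin b) (u : C → Bool) : out (put z k u) = out z := rfl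

theorem put_put (z : Conf b C R) (k : Fin b) (u : C → Bool) :
    put (put z k u) k (cont z k) = z := by
  funext s
  rcases s with ⟨j, c⟩ | r
  · simp only [put, cont]
    split_ifs with h
    · rw [h]
    · rfl
  · rfl

/-- configurations as pairs -/
def split : Conf b C R ≃ (R → Bool) × (Fin b → C → Bool) where
  toFun z := (out z, cont z)
  invFun p := Sum.elim (fun s => p.2 s.1 s.2) p.1
  left_inv z := by
    funext s
    rcases s with ⟨j, c⟩ | r <;> rfl
  right_inv p := rfl

theorem few_hits (a : (R → Bool) → Fin b → C → Bool) (m : ℕ) :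
    (#{z : Conf b C R | hits a z < m} : ℝ) ≤
      2 ^ m * (2 ^ Fintype.card R * (2 ^ Fintype.card C - 1 / 2) ^ b) := by
  classical
  have h2 : ∀ (u : C → Bool), ∑ v : C → Bool, (if v = u then (1 / 2 : ℝ) else 1) =
      2 ^ Fintype.card C - 1 / 2 := by
    intro u
    have h3 : ∀ v : C → Bool, (if v = u then (1 / 2 : ℝ) else 1) =
        1 - (if v = u then (1 / 2 : ℝ) else 0) := by
      intro v; split_ifs <;> norm_num
    rw [Finset.sum_congr rfl fun v _ => h3 v, Finset.sum_sub_distrib, Finset.sum_const,
      Finset.card_univ, Fintype.card_fun, Fintype.card_bool, Finset.sum_ite_eq' Finset.univ u,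
      if_pos (Finset.mem_univ _), nsmul_eq_mul]
    push_cast
    ring
  have h1 : ∑ z : Conf b C R, (1 / 2 : ℝ) ^ hits a z =
      2 ^ Fintype.card R * (2 ^ Fintype.card C - 1 / 2) ^ b := by
    calc ∑ z : Conf b C R, (1 / 2 : ℝ) ^ hits a z
        = ∑ z : Conf b C R, ∏ k, (if (split z).2 k = a (split z).1 k then (1 / 2 : ℝ) else 1) := by
          refine Finset.sum_congr rfl fun z _ => ?_
          rw [Finset.prod_ite, Finset.prod_const, Finset.prod_const_one, mul_one]
          rfl
      _ = ∑ p : (R → Bool) × (Fin b → C → Bool),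
            ∏ k, (if p.2 k = a p.1 k then (1 / 2 : ℝ) else 1) :=
          Equiv.sum_comp split (fun p => ∏ k, (if p.2 k = a p.1 k then (1 / 2 : ℝ) else 1))
      _ = ∑ r : R → Bool, ∑ u : Fin b → C → Bool,
            ∏ k, (if u k = a r k then (1 / 2 : ℝ) else 1) := Fintype.sum_prod_type _
      _ = ∑ r : R → Bool, (2 ^ Fintype.card C - 1 / 2 : ℝ) ^ b := by
          refine Finset.sum_congr rfl fun r _ => ?_
          have h4 := Finset.prod_univ_sum (fun _ : Fin b => (Finset.univ : Finset (C → Bool)))
            (fun k v => if v = a r k then (1 / 2 : ℝ) else 1)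
          rw [Fintype.piFinset_univ] at h4
          rw [← h4, Finset.prod_congr rfl fun k _ => h2 (a r k), Finset.prod_const,
            Finset.card_univ, Fintype.card_fin]
      _ = _ := by
          rw [Finset.sum_const, Finset.card_univ, Fintype.card_fun, Fintype.card_bool,
            nsmul_eq_mul]
          push_cast
          ring
  have h8 : (#{z : Conf b C R | hits a z < m} : ℝ) * (1 / 2) ^ m ≤
      ∑ z : Conf b C R, (1 / 2 : ℝ) ^ hits a z := by
    calc (#{z : Conf b C R | hits a z < m} : ℝ) * (1 / 2) ^ m
        = ∑ _z ∈ {z : Conf b C R | hits a z < m}, (1 / 2 : ℝ) ^ m := by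
          rw [Finset.sum_const, nsmul_eq_mul]
      _ ≤ ∑ z ∈ {z : Conf b C R | hits a z < m}, (1 / 2 : ℝ) ^ hits a z := by
          refine Finset.sum_le_sum fun z hz => ?_
          exact pow_le_pow_of_le_one (by norm_num) (by norm_num) (Finset.mem_filter.1 hz).2.le
      _ ≤ _ := Finset.sum_le_sum_of_subset_of_nonneg (Finset.subset_univ _) fun z _ _ => by
          positivity
  rw [h1] at h8
  have h11 : (#{z : Conf b C R | hits a z < m} : ℝ) =
      2 ^ m * ((#{z : Conf b C R | hits a z < m} : ℝ) * (1 / 2) ^ m) := by
    rw [mul_comm (#{z : Conf b C R | hits a z < m} : ℝ), ← mul_assoc, ← mul_pow]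
    norm_num
  rw [h11]
  exact mul_le_mul_of_nonneg_left h8 (by positivity)

/-- If the family `F` is closed under the changes at hits and each change meets `B`, then `F` is
small or `B` is large. -/
theorem robust (a a' : (R → Bool) → Fin b → C → Bool) (F B : Finset (Conf b C R))
    (h : ∀ z ∈ F, ∀ k, cont z k = a (out z) k → z ∈ B ∨ put z k (a' (out z) k) ∈ B) (m : ℕ) :
    m * #F ≤ m * #{z : Conf b C R | hits a z < m} + 2 * b * #B := by
  classical
  have h1 : ∑ z ∈ F, hits a z ≤ 2 * b * #B := by
    set Pi : Finset (Conf b C R × Fin b) :=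
      (F ×ˢ Finset.univ).filter fun p => cont p.1 p.2 = a (out p.1) p.2 with hPi
    have e1 : #Pi = ∑ z ∈ F, hits a z := by
      rw [hPi, Finset.card_filter, Finset.sum_product]
      refine Finset.sum_congr rfl fun z _ => ?_
      rw [hits, Finset.card_filter]
    rw [← e1]
    have e2 : Pi = Pi.filter (fun p => p.1 ∈ B) ∪
        Pi.filter (fun p => put p.1 p.2 (a' (out p.1) p.2) ∈ B) := by
      rw [← Finset.filter_or]
      symm
      rw [Finset.filter_eq_self]
      intro p hp
      rw [hPi, Finset.mem_filter, Finset.mem_product] at hp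
      exact h p.1 hp.1.1 p.2 hp.2
    have e3 : #(Pi.filter fun p => p.1 ∈ B) ≤ b * #B := by
      calc #(Pi.filter fun p => p.1 ∈ B) ≤ #(B ×ˢ (Finset.univ : Finset (Fin b))) := by
            refine Finset.card_le_card fun p hp => ?_
            rw [Finset.mem_filter] at hp
            exact Finset.mem_product.2 ⟨hp.2, Finset.mem_univ _⟩
        _ = b * #B := by rw [Finset.card_product, Finset.card_univ, Fintype.card_fin, mul_comm]
    have e4 : #(Pi.filter fun p => put p.1 p.2 (a' (out p.1) p.2) ∈ B) ≤ b * #B := by
      calc #(Pi.filter fun p => put p.1 p.2 (a' (out p.1) p.2) ∈ B)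
          ≤ #(B ×ˢ (Finset.univ : Finset (Fin b))) := by
            refine Finset.card_le_card_of_injOn
              (fun p => (put p.1 p.2 (a' (out p.1) p.2), p.2)) ?_ ?_
            · intro p hp
              have hp' := (Finset.mem_filter.1 hp).2
              exact Finset.mem_coe.2 (Finset.mem_product.2 ⟨hp', Finset.mem_univ _⟩)
            · rintro ⟨z, k⟩ hp ⟨z', k'⟩ hp' heq
              have h1 := (Finset.mem_filter.1 (Finset.mem_filter.1 hp).1).2
              have h2 := (Finset.mem_filter.1 (Finset.mem_filter.1 hp').1).2
              simp only [Prod.mk.injEq] at heq h1 h2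
              obtain ⟨h3, rfl⟩ := heq
              have h4 : out z = out z' := by
                have := congrArg out h3
                rwa [out_put, out_put] at this
              have h5 := put_put z k (a' (out z) k)
              have h6 := put_put z' k (a' (out z') k)
              rw [h1, h3, h4, ← h2, h6] at h5
              rw [h5]
        _ = b * #B := by rw [Finset.card_product, Finset.card_univ, Fintype.card_fin, mul_comm]
    calc #Pi ≤ #(Pi.filter fun p => p.1 ∈ B) +
          #(Pi.filter fun p => put p.1 p.2 (a' (out p.1) p.2) ∈ B) := by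
          conv_lhs => rw [e2]
          exact Finset.card_union_le _ _
      _ ≤ 2 * b * #B := by
          have : 2 * b * #B = b * #B + b * #B := by ring
          omega
  have h2 : m * #(F.filter fun z => ¬ hits a z < m) ≤ ∑ z ∈ F, hits a z := by
    calc m * #(F.filter fun z => ¬ hits a z < m)
        = ∑ _z ∈ F.filter (fun z => ¬ hits a z < m), m := by
          rw [Finset.sum_const, smul_eq_mul, mul_comm]
      _ ≤ ∑ z ∈ F.filter (fun z => ¬ hits a z < m), hits a z :=
          Finset.sum_le_sum fun z hz => not_lt.1 (Finset.mem_filter.1 hz).2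
      _ ≤ _ := Finset.sum_le_sum_of_subset (Finset.filter_subset _ _)
  have h3 : #F = #(F.filter fun z => hits a z < m) + #(F.filter fun z => ¬ hits a z < m) :=
    (Finset.card_filter_add_card_filter_not _).symm
  have h4 : #(F.filter fun z => hits a z < m) ≤ #{z : Conf b C R | hits a z < m} :=
    Finset.card_le_card (Finset.filter_subset_filter _ (Finset.subset_univ _))
  calc m * #F = m * #(F.filter fun z => hits a z < m) + m * #(F.filter fun z => ¬ hits a z < m) := by
        rw [h3, mul_add]
    _ ≤ _ := Nat.add_le_add (Nat.mul_le_mul_left _ h4) (h2.trans h1)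

end

end Pool.Agent.Y613.PJ
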