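import Pool.Agent.Y613.PJ.Pair
import Pool.Agent.Y613.PJ.Count

/-!
# Machines which read a board in several passes
-/

set_option autoImplicit false

namespace Pool.Agent.Y613.PJ

open Finset

/-- A nondeterministic machine with the state set `Q`; the transitions may depend on the number of
the pass and on the time. -/
structure Machine (Q : Type) where
  /-- initial states -/
  start : Q → Prop
  /-- `step i t q β q'`: in the pass `i` at time `t`, in the state `q`, after reading the bit `β`, it
  may enter the state `q'` -/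
  step : ℕ → ℕ → Q → Bool → Q → Prop
  /-- accepting states -/
  accept : Q → Prop

variable {Q X : Type}

/-- transitions between the times `s` and `t` of the pass `i`; `o` is the order of the cells -/
def Seg (M : Machine Q) (i : ℕ) (o : ℕ → X) (z : X → Bool) (s t : ℕ) (q q' : Q) : Prop :=
  ∃ r : ℕ → Q, r s = q ∧ r t = q' ∧ ∀ u, s ≤ u → u < t → M.step i u (r u) (z (o u)) (r (u + 1))

theorem Seg.congr {M : Machine Q} {i : ℕ} {o : ℕ → X} {z z' : X → Bool} {s t : ℕ} {q q' : Q}
    (h : Seg M i o z s t q q') (hz : ∀ u, s ≤ u → u < t → z' (o u) = z (o u)) :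
    Seg M i o z' s t q q' := by
  obtain ⟨r, h1, h2, h3⟩ := h
  refine ⟨r, h1, h2, fun u hu hu' => ?_⟩
  rw [hz u hu hu']
  exact h3 u hu hu'

theorem Seg.trans {M : Machine Q} {i : ℕ} {o : ℕ → X} {z : X → Bool} {s t u : ℕ} {q q' q'' : Q}
    (hst : s ≤ t) (htu : t ≤ u) (h : Seg M i o z s t q q') (h' : Seg M i o z t u q' q'') :
    Seg M i o z s u q q'' := by
  obtain ⟨r, h1, h2, h3⟩ := h
  obtain ⟨r', h1', h2', h3'⟩ := h'
  refine ⟨fun v => if v ≤ t then r v else r' v, ?_, ?_, ?_⟩
  · simp only [if_pos hst]; exact h1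
  · by_cases h : u ≤ t
    · have e : u = t := le_antisymm h htu
      subst e
      simp only [le_refl, if_true]
      rw [h2, ← h1', h2']
    · simp only [if_neg h]; exact h2'
  · intro v hv hv'
    by_cases h : v < t
    · simp only [if_pos h.le, if_pos (Nat.succ_le_of_lt h)]
      exact h3 v hv h
    · have e1 : ¬ v + 1 ≤ t := by omega
      have e2 : (if v ≤ t then r v else r' v) = r' v := by
        split_ifs with h4
        · have e : v = t := by omega
          rw [e, h2, h1']
        · rfl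
      simp only [e2, if_neg e1]
      exact h3' v (by omega) hv'

theorem Seg.cut {M : Machine Q} {i : ℕ} {o : ℕ → X} {z : X → Bool} {s t u : ℕ} {q q'' : Q}
    (h : Seg M i o z s u q q'') (hst : s ≤ t) (htu : t ≤ u) :
    ∃ q', Seg M i o z s t q q' ∧ Seg M i o z t u q' q'' := by
  obtain ⟨r, h1, h2, h3⟩ := h
  exact ⟨r t, ⟨r, h1, rfl, fun v hv hv' => h3 v hv (by omega)⟩,
    ⟨r, rfl, h2, fun v hv hv' => h3 v (by omega) hv'⟩⟩

/-- replace the cells read between the times `s` and `t` -/
theorem Seg.swap {M : Machine Q} {i : ℕ} {o : ℕ → X} {z z' : X → Bool} {s t n : ℕ} {q q' : Q}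
    (h : Seg M i o z 0 n q q') (hst : s ≤ t) (htn : t ≤ n)
    (h1 : ∀ p p', Seg M i o z s t p p' → Seg M i o z' s t p p')
    (h2 : ∀ u, u < n → ¬ (s ≤ u ∧ u < t) → z' (o u) = z (o u)) : Seg M i o z' 0 n q q' := by
  obtain ⟨q₁, h3, h4⟩ := h.cut (Nat.zero_le s) (hst.trans htn)
  obtain ⟨q₂, h5, h6⟩ := h4.cut hst htn
  refine ((h3.congr fun u _ hu => h2 u (by omega) (by omega)).trans (Nat.zero_le s) hst
    (h1 _ _ h5)).trans (Nat.zero_le t) htn (h6.congr fun u hu hu' => h2 u hu' (by omega))

end Pool.Agent.Y613.PJ
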