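import Pool.Agent.Y613.PJ.Mach

/-!
# Families decided by machines with bounded memory
-/

set_option autoImplicit false

namespace Pool.Agent.Y613.PJ

open Finset

variable {Q : Type}

/-- one pass over all the cells in the order `o` -/
def Pass (M : Machine Q) (i : ℕ) {n : ℕ} {X : Type} (o : Fin n ≃ X) (z : X → Bool) (q q' : Q) :
    Prop :=
  ∃ r : ℕ → Q, r 0 = q ∧ r n = q' ∧ ∀ t : Fin n, M.step i t (r t) (z (o t)) (r (t + 1))

/-- acceptance after `p` passes in the orders `o 0, ..., o (p - 1)` -/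
def Accepts (M : Machine Q) {p n : ℕ} {X : Type} (o : Fin p → Fin n ≃ X) (z : X → Bool) : Prop :=
  ∃ s : ℕ → Q, M.start (s 0) ∧ M.accept (s p) ∧
    ∀ i : Fin p, Pass M i (o i) z (s i) (s (i + 1))

/-- The order `o` of the cells is compatible with the numbering `σ`: a cell all of whose coordinates
are smaller than all coordinates of another cell is read before it, or it is always read after
it. -/
def Compatible {d N : ℕ} (σ : Fin N ≃ Fin N) (o : Fin (N ^ d) ≃ (Fin d → Fin N)) : Prop :=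
  (∀ c c', (∀ i j, σ (c i) < σ (c' j)) → o.symm c < o.symm c') ∨
    (∀ c c', (∀ i j, σ (c i) < σ (c' j)) → o.symm c' < o.symm c)

/-- the interval of the positions of a block -/
theorem exists_interval {b n : ℕ} {Y : Type} [Fintype Y] [Nonempty Y] (f : Fin b → Y → ℕ)
    (hn : ∀ k y, f k y < n)
    (h : ∀ j k, j ≠ k → (∀ y y', f j y < f k y') ∨ (∀ y y', f k y' < f j y)) (k : Fin b) :
    ∃ s t : ℕ, s ≤ t ∧ t ≤ n ∧ (∀ y, s ≤ f k y ∧ f k y < t) ∧
      ∀ j, j ≠ k → ∀ y, ¬ (s ≤ f j y ∧ f j y < t) := by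
  classical
  obtain ⟨y₁, -, h1⟩ := Finset.exists_mem_eq_inf' (Finset.univ_nonempty (α := Y)) (f k)
  obtain ⟨y₂, -, h2⟩ := Finset.exists_mem_eq_sup' (Finset.univ_nonempty (α := Y)) (f k)
  have h3 : ∀ y, f k y₁ ≤ f k y := fun y => by
    rw [← h1]; exact Finset.inf'_le _ (Finset.mem_univ y)
  have h4 : ∀ y, f k y ≤ f k y₂ := fun y => by
    rw [← h2]; exact Finset.le_sup' _ (Finset.mem_univ y)
  refine ⟨f k y₁, f k y₂ + 1, (h3 y₂).trans (Nat.le_succ _), hn k y₂,
    fun y => ⟨h3 y, Nat.lt_succ_of_le (h4 y)⟩, ?_⟩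
  intro j hj y hy
  rcases h j k hj with h5 | h5
  · have := h5 y y₁; omega
  · have := h5 y y₂; omega

section blocks

variable {d N l b : ℕ}

/-- the coordinate number `a` of the block `k` -/
def coord (σ : Fin N ≃ Fin N) (hb : b * l ≤ N) (k : Fin b) (a : Fin l) : Fin N :=
  σ.symm ⟨l * k + a, by
    have h1 : l * ((k : ℕ) + 1) ≤ l * b := Nat.mul_le_mul_left l k.2
    have h2 := a.2
    rw [mul_add, mul_one] at h1
    rw [mul_comm b l] at hb
    omega⟩

theorem coord_val (σ : Fin N ≃ Fin N) (hb : b * l ≤ N) (k : Fin b) (a : Fin l) :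
    ((σ (coord σ hb k a) : Fin N) : ℕ) = l * k + a := by
  unfold coord
  rw [Equiv.apply_symm_apply]

theorem coord_inj (σ : Fin N ≃ Fin N) (hb : b * l ≤ N) {k k' : Fin b} {a a' : Fin l}
    (h : coord σ hb k a = coord σ hb k' a') : k = k' ∧ a = a' := by
  have h1 := coord_val σ hb k a
  rw [h, coord_val] at h1
  have hl : 0 < l := lt_of_le_of_lt (Nat.zero_le _) a.2
  have h2 : (l * (k : ℕ) + a) / l = k := by
    rw [Nat.mul_add_div hl, Nat.div_eq_of_lt a.2, add_zero]
  have h3 : (l * (k' : ℕ) + a') / l = k' := by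
    rw [Nat.mul_add_div hl, Nat.div_eq_of_lt a'.2, add_zero]
  have h4 : (k : ℕ) = k' := by rw [← h2, ← h1, h3]
  refine ⟨Fin.ext h4, Fin.ext ?_⟩
  rw [h4] at h1
  omega

/-- the cells of the blocks -/
def emb (σ : Fin N ≃ Fin N) (hb : b * l ≤ N) (s : Fin b × (Fin d → Fin l)) : Fin d → Fin N :=
  fun i => coord σ hb s.1 (s.2 i)

theorem emb_injective (hd : 1 ≤ d) (σ : Fin N ≃ Fin N) (hb : b * l ≤ N) :
    Function.Injective (emb (d := d) σ hb) := by
  rintro ⟨k, x⟩ ⟨k', x'⟩ h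
  have h1 : ∀ i, k = k' ∧ x i = x' i := fun i => coord_inj σ hb (congrFun h i)
  have h2 : k = k' := (h1 ⟨0, by omega⟩).1
  rw [Prod.mk.injEq]
  exact ⟨h2, funext fun i => (h1 i).2⟩

/-- the other cells -/
abbrev Rest (σ : Fin N ≃ Fin N) (hb : b * l ≤ N) (d : ℕ) : Type :=
  {c : Fin d → Fin N // c ∉ Set.range (emb (d := d) σ hb)}

open Classical in
/-- cells as cells of the blocks and other cells -/
noncomputable def cellEquiv (hd : 1 ≤ d) (σ : Fin N ≃ Fin N) (hb : b * l ≤ N) :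
    (Fin b × (Fin d → Fin l)) ⊕ Rest σ hb d ≃ (Fin d → Fin N) :=
  (Equiv.sumCongr (Equiv.ofInjective _ (emb_injective hd σ hb)) (Equiv.refl _)).trans
    (Equiv.Set.sumCompl (Set.range (emb (d := d) σ hb)))

theorem cellEquiv_inl (hd : 1 ≤ d) (σ : Fin N ≃ Fin N) (hb : b * l ≤ N) (k : Fin b)
    (x : Fin d → Fin l) : cellEquiv hd σ hb (Sum.inl (k, x)) = emb σ hb (k, x) := by
  unfold cellEquiv
  simp only [Equiv.trans_apply, Equiv.sumCongr_apply, Sum.map_inl]
  rw [Equiv.Set.sumCompl_apply_inl]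
  rfl

end blocks

/-- `cube d γ` is `γ^d` -/
def cube {N : ℕ} (d : ℕ) (γ : Finset (Fin N)) : Finset (Fin d → Fin N) :=
  Fintype.piFinset (fun _ : Fin d => γ)

/-- good families -/
def Good {N d : ℕ} (S : Finset (Finset (Fin d → Fin N))) : Prop :=
  ∃ A ∈ S, ∃ γ : Finset (Fin N), γ.Nonempty ∧ Disjoint A (cube d γ) ∧ A ∪ cube d γ ∈ S

open Classical in
/-- the configuration of a set -/
noncomputable def conf {d N l b : ℕ} (hd : 1 ≤ d) (σ : Fin N ≃ Fin N) (hb : b * l ≤ N)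
    (z : (Fin d → Fin N) → Bool) : Conf b (Fin d → Fin l) (Rest σ hb d) :=
  fun s => z (cellEquiv hd σ hb s)

/-- **The swap**: in the block `k` some contents can be replaced by larger ones. -/
theorem exists_swap {d : ℕ} (hd : 1 ≤ d) {w p l : ℕ}
    (hl : ∀ χ : Set (Fin d → Fin l) → (Fin p → Fin w → Fin w → Prop),
      ∃ (a : Set (Fin d → Fin l)) (γ : Set (Fin l)),
        γ.Nonempty ∧ Disjoint a (cubeSet d γ) ∧ χ a = χ (a ∪ cubeSet d γ))
    [Fintype Q] (hQ : Fintype.card Q ≤ w) {N b : ℕ} (hb : b * l ≤ N) (M : Machine Q)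
    (σ : Fin N ≃ Fin N) (o : Fin p → Fin (N ^ d) ≃ (Fin d → Fin N))
    (ho : ∀ i, Compatible σ (o i)) (ρ : Rest σ hb d → Bool) (k : Fin b) :
    ∃ (a : Set (Fin d → Fin l)) (γ : Set (Fin l)), γ.Nonempty ∧ Disjoint a (cubeSet d γ) ∧
      ∀ z z' : (Fin d → Fin N) → Bool, out (conf hd σ hb z) = ρ →
        (∀ x, cont (conf hd σ hb z) k x = true ↔ x ∈ a) →
        (∀ x, cont (conf hd σ hb z') k x = true ↔ x ∈ a ∪ cubeSet d γ) →
        (∀ s, (∀ x, s ≠ Sum.inl (k, x)) → conf hd σ hb z' s = conf hd σ hb z s) →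
        Accepts M o z → Accepts M o z' := by
  classical
  have hl0 : 0 < l := by
    obtain ⟨-, γ, ⟨x, -⟩, -⟩ := hl fun _ _ _ _ => True
    exact lt_of_le_of_lt (Nat.zero_le _) x.2
  have hN : 0 < N := by
    have h1 : 1 * l ≤ b * l := Nat.mul_le_mul_right l (lt_of_le_of_lt (Nat.zero_le _) k.2)
    omega
  have hne : Nonempty (Fin d → Fin l) := ⟨fun _ => ⟨0, hl0⟩⟩
  let x₀ : Fin d → Fin N := fun _ => ⟨0, hN⟩
  obtain ⟨ε⟩ : Nonempty (Q ↪ Fin w) :=
    Function.Embedding.nonempty_of_card_le (by rw [Fintype.card_fin]; exact hQ)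
  -- the orders as functions
  let o' : Fin p → ℕ → (Fin d → Fin N) := fun i t => if h : t < N ^ d then o i ⟨t, h⟩ else x₀
  have ho' : ∀ i (t : Fin (N ^ d)), o' i t = o i t := fun i t => by
    simp only [o', dif_pos t.2]
  have hpass : ∀ (i : Fin p) (z : (Fin d → Fin N) → Bool) (q q' : Q),
      Pass M i (o i) z q q' ↔ Seg M i (o' i) z 0 (N ^ d) q q' := by
    intro i z q q'
    constructor
    · rintro ⟨r, h1, h2, h3⟩
      refine ⟨r, h1, h2, fun u _ hu => ?_⟩
      have := h3 ⟨u, hu⟩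
      rw [← ho'] at this
      exact this
    · rintro ⟨r, h1, h2, h3⟩
      refine ⟨r, h1, h2, fun t => ?_⟩
      have := h3 t (Nat.zero_le _) t.2
      rw [ho'] at this
      exact this
  -- the intervals
  have hint : ∀ i : Fin p, ∃ s t : ℕ, s ≤ t ∧ t ≤ N ^ d ∧
      (∀ y : Fin d → Fin l, s ≤ ((o i).symm (emb σ hb (k, y)) : ℕ) ∧
        ((o i).symm (emb σ hb (k, y)) : ℕ) < t) ∧
      ∀ j, j ≠ k → ∀ y : Fin d → Fin l, ¬ (s ≤ ((o i).symm (emb σ hb (j, y)) : ℕ) ∧
        ((o i).symm (emb σ hb (j, y)) : ℕ) < t) := by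
    intro i
    refine exists_interval (b := b) (n := N ^ d) (Y := Fin d → Fin l)
      (fun j y => ((o i).symm (emb σ hb (j, y)) : ℕ)) (fun j y => Fin.is_lt _) ?_ k
    have hlt : ∀ j j' : Fin b, j < j' → ∀ (y y' : Fin d → Fin l) (u v : Fin d),
        σ (emb σ hb (j, y) u) < σ (emb σ hb (j', y') v) := by
      intro j j' hjj y y' u v
      rw [Fin.lt_def]
      change ((σ (coord σ hb j (y u)) : Fin N) : ℕ) < ((σ (coord σ hb j' (y' v)) : Fin N) : ℕ)
      rw [coord_val, coord_val]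
      have h1 : l * ((j : ℕ) + 1) ≤ l * j' := Nat.mul_le_mul_left l hjj
      have h2 := (y u).2
      rw [mul_add, mul_one] at h1
      omega
    intro j j' hjj
    rcases lt_or_gt_of_ne hjj with h | h
    · rcases ho i with h1 | h1
      · left; intro y y'; exact h1 _ _ (hlt j j' h y y')
      · right; intro y y'; exact h1 _ _ (hlt j j' h y y')
    · rcases ho i with h1 | h1
      · right; intro y y'; exact h1 _ _ (hlt j' j h y' y)
      · left; intro y y'; exact h1 _ _ (hlt j' j h y' y)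
  choose s t hst htn hin hout using hint
  -- the board with given contents of the block
  let asm : Set (Fin d → Fin l) → (Fin d → Fin N) → Bool := fun x c =>
    match (cellEquiv hd σ hb).symm c with
    | Sum.inl (j, y) => if j = k then decide (y ∈ x) else false
    | Sum.inr r => ρ r
  obtain ⟨a, γ, hγ, hdisj, hcol⟩ := hl fun x i q₁ q₂ => ∃ q q', ε q = q₁ ∧ ε q' = q₂ ∧
    Seg M i (o' i) (asm x) (s i) (t i) q q'
  refine ⟨a, γ, hγ, hdisj, ?_⟩
  intro z z' hz1 hz2 hz3 hz4 hacc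
  -- both boards agree with the assembled ones in the interval
  have hagree : ∀ (i : Fin p) (y : (Fin d → Fin N) → Bool) (x : Set (Fin d → Fin l)),
      out (conf hd σ hb y) = ρ → (∀ c, cont (conf hd σ hb y) k c = true ↔ c ∈ x) →
      ∀ u, s i ≤ u → u < t i → y (o' i u) = asm x (o' i u) := by
    intro i y x h1 h2 u hu hu'
    have hun : u < N ^ d := lt_of_lt_of_le hu' (htn i)
    have e1 : o' i u = o i ⟨u, hun⟩ := ho' i ⟨u, hun⟩
    obtain ⟨v, hv⟩ := (cellEquiv hd σ hb).surjective (o' i u)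
    rw [← hv]
    rcases v with ⟨j, c⟩ | r
    · have hj : j = k := by
        by_contra hjk
        refine hout i j hjk c ?_
        rw [cellEquiv_inl] at hv
        rw [hv, e1, Equiv.symm_apply_apply]
        exact ⟨hu, hu'⟩
      subst hj
      have h3 := h2 c
      have h4 : asm x (cellEquiv hd σ hb (Sum.inl (j, c))) = decide (c ∈ x) := by
        simp only [asm, Equiv.symm_apply_apply, if_true]
      rw [h4]
      change cont (conf hd σ hb y) j c = decide (c ∈ x)
      rw [Bool.eq_iff_iff, h3, decide_eq_true_iff]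
    · have h4 : asm x (cellEquiv hd σ hb (Sum.inr r)) = ρ r := by
        simp only [asm, Equiv.symm_apply_apply]
      rw [h4, ← h1]
      rfl
  have hz1' : out (conf hd σ hb z') = ρ := by
    rw [← hz1]
    funext r
    exact hz4 (Sum.inr r) (fun x => by simp)
  obtain ⟨f, hf1, hf2, hf3⟩ := hacc
  refine ⟨f, hf1, hf2, fun i => ?_⟩
  rw [hpass]
  refine ((hpass i z _ _).1 (hf3 i)).swap (hst i) (htn i) ?_ ?_
  · intro q q' hq
    have h1 := hq.congr (z' := asm a) fun u hu hu' => (hagree i z a hz1 hz2 u hu hu').symm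
    have h2 := congrFun (congrFun (congrFun hcol i) (ε q)) (ε q')
    have h3 : ∃ p₁ p₂, ε p₁ = ε q ∧ ε p₂ = ε q' ∧
        Seg M i (o' i) (asm (a ∪ cubeSet d γ)) (s i) (t i) p₁ p₂ := by
      rw [← eq_iff_iff.1 h2]
      exact ⟨q, q', rfl, rfl, h1⟩
    obtain ⟨p₁, p₂, e1, e2, h4⟩ := h3
    rw [ε.injective e1, ε.injective e2] at h4
    exact h4.congr fun u hu hu' => hagree i z' _ hz1' hz3 u hu hu'
  · intro u hu hu'
    obtain ⟨v, hv⟩ := (cellEquiv hd σ hb).surjective (o' i u)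
    rw [← hv]
    refine hz4 v ?_
    rintro x rfl
    apply hu'
    have h1 := hin i x
    rw [cellEquiv_inl] at hv
    rw [hv, show o' i u = o i ⟨u, hu⟩ from ho' i ⟨u, hu⟩, Equiv.symm_apply_apply] at h1
    exact h1

end Pool.Agent.Y613.PJ
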