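import Pool.Agent.Y613.PJ.Pet

/-!
# The polynomial Hales-Jewett theorem: two-point form and full form
-/

set_option autoImplicit false

namespace Pool.Agent.Y613.PJ

open Finset

/-- the cube of `γ` -/
def cubeSet {ι : Type} (d : ℕ) (γ : Set ι) : Set (Fin d → ι) := {x | ∀ i, x i ∈ γ}

theorem shape_some {d : ℕ} {ι : Type} (x : Fin d → ι) :
    shape (fun i => some (x i)) = Finset.univ := by
  ext i
  simp [mem_shape]

theorem live_some {d : ℕ} {ι : Type} (hd : 1 ≤ d) (γ : Set ι) (x : Fin d → ι) :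
    Live γ (fun i => some (x i)) ↔ x ∈ cubeSet d γ := by
  unfold Live In cubeSet
  rw [shape_some]
  constructor
  · rintro ⟨-, h⟩ i
    exact h i (x i) rfl
  · intro h
    refine ⟨⟨⟨0, by omega⟩, Finset.mem_univ _⟩, ?_⟩
    intro i y hy
    rw [Option.mem_def, Option.some_inj] at hy
    rw [← hy]
    exact h i

/-- **Two-point polynomial Hales-Jewett theorem.** -/
theorem exists_pair (d : ℕ) (hd : 1 ≤ d) (κ : Type) [Finite κ] :
    ∃ l : ℕ, ∀ χ : Set (Fin d → Fin l) → κ, ∃ (a : Set (Fin d → Fin l)) (γ : Set (Fin l)),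
      γ.Nonempty ∧ Disjoint a (cubeSet d γ) ∧ χ a = χ (a ∪ cubeSet d γ) := by
  classical
  obtain ⟨ι, hι, h⟩ := pet d _ Prop κ (fun _ => False)
    (fun e => if e = d then {fun _ => True} else ∅) rfl
  have hfin : Fintype ι := Fintype.ofFinite ι
  let e := Fintype.equivFin ι
  refine ⟨Fintype.card ι, fun χ => ?_⟩
  obtain ⟨a, γ, h1, h2, h3⟩ := h fun a => χ {x | a fun i => some (e.symm (x i))}
  have h4 := h3 (fun _ => True) ⟨d, hd, le_refl d, fun J hJ => by
    exact absurd hJ (by simpa using Finset.card_le_univ J), fun _ => True, by simp, fun J _ => rfl⟩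
  have hmem : ∀ x : Fin d → Fin (Fintype.card ι), (fun i => e.symm (x i)) ∈ cubeSet d γ ↔
      x ∈ cubeSet d (e '' γ) := by
    intro x
    unfold cubeSet
    simp only [Set.mem_ofPred_eq, Set.mem_image_equiv]
  refine ⟨{x | a fun i => some (e.symm (x i))}, e '' γ, h1.image _, ?_, ?_⟩
  · rw [Set.disjoint_left]
    intro x hx hx'
    rw [← hmem] at hx'
    have h5 : a (fun i => some (e.symm (x i))) = False := h2 _ ((live_some hd γ _).2 hx')
    exact cast h5 hx
  · refine (show χ {x | a fun i => some (e.symm (x i))} = _ from h4.symm).trans ?_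
    refine congrArg χ ?_
    ext x
    simp only [Set.mem_ofPred_eq, Set.mem_union]
    unfold move
    split_ifs with h5
    · rw [live_some hd, hmem] at h5
      exact ⟨fun _ => Or.inr h5, fun _ => trivial⟩
    · rw [live_some hd, hmem] at h5
      exact ⟨fun h => Or.inl h, fun h => h.resolve_right h5⟩

open Classical in
/-- **Polynomial Hales-Jewett theorem**, full form: all the letters on the cube of `γ`. -/
theorem exists_full (d : ℕ) (hd : 1 ≤ d) (Λ κ : Type) [Finite Λ] [Nonempty Λ] [Finite κ] :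
    ∃ l : ℕ, ∀ χ : ((Fin d → Fin l) → Λ) → κ, ∃ (a : (Fin d → Fin l) → Λ) (γ : Set (Fin l)) (c : κ),
      γ.Nonempty ∧ ∀ s : Λ, χ (fun x => if x ∈ cubeSet d γ then s else a x) = c := by
  obtain ⟨t₀⟩ := ‹Nonempty Λ›
  obtain ⟨ι, hι, h⟩ := pet d _ Λ κ (fun _ => t₀) (fun e => if e = d then Set.univ else ∅) rfl
  have hfin : Fintype ι := Fintype.ofFinite ι
  let e := Fintype.equivFin ι
  refine ⟨Fintype.card ι, fun χ => ?_⟩
  obtain ⟨a, γ, h1, h2, h3⟩ := h fun a => χ fun x => a fun i => some (e.symm (x i))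
  have hmem : ∀ x : Fin d → Fin (Fintype.card ι), (fun i => e.symm (x i)) ∈ cubeSet d γ ↔
      x ∈ cubeSet d (e '' γ) := by
    intro x
    unfold cubeSet
    simp only [Set.mem_ofPred_eq, Set.mem_image_equiv]
  refine ⟨fun x => a fun i => some (e.symm (x i)), e '' γ, χ fun x => a fun i => some (e.symm (x i)),
    h1.image _, fun s => ?_⟩
  have h4 := h3 (fun _ => s) ⟨d, hd, le_refl d, fun J hJ => by
    exact absurd hJ (by simpa using Finset.card_le_univ J), fun _ => s, by simp, fun J _ => rfl⟩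
  refine Eq.trans ?_ h4
  refine congrArg χ ?_
  funext x
  simp only [move, live_some hd, hmem]

end Pool.Agent.Y613.PJ
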