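import Pool.Agent.Y613.PJ.Basic

/-!
# The polynomial Hales-Jewett theorem: the induction
-/

set_option autoImplicit false

namespace Pool.Agent.Y613.PJ

open Finset

variable {D : ℕ} {ι ι₁ ι₂ Λ κ : Type}

/-- The nontrivial directions of the system with focus `t` and active letters `S`: on the shapes with
more than `e` elements `v` is equal to `t`, on the shapes with `e` elements it is in `S e`, and on the
smaller shapes it is arbitrary. -/
def V (t : Finset (Fin D) → Λ) (S : ℕ → Set (Finset (Fin D) → Λ)) (v : Finset (Fin D) → Λ) : Prop :=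
  ∃ e, 1 ≤ e ∧ e ≤ D ∧ (∀ J, e < #J → v J = t J) ∧ ∃ s ∈ S e, ∀ J, #J = e → v J = s J

/-- a monochromatic configuration -/
def Mono (t : Finset (Fin D) → Λ) (S : ℕ → Set (Finset (Fin D) → Λ)) (χ : Board D ι Λ → κ) : Prop :=
  ∃ (a : Board D ι Λ) (γ : Set ι), γ.Nonempty ∧ (∀ x, Live γ x → a x = t (shape x)) ∧
    ∀ v, V t S v → χ (move a γ v) = χ a

/-- a fan with `k` colours -/
def Fan (t : Finset (Fin D) → Λ) (S : ℕ → Set (Finset (Fin D) → Λ)) (k : ℕ)
    (χ : Board D ι Λ → κ) : Prop :=
  ∃ (a : Board D ι Λ) (γ : Fin k → Set ι) (c : Fin k → κ), Function.Injective c ∧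
    ∀ i, (γ i).Nonempty ∧ (∀ x, Live (γ i) x → a x = t (shape x)) ∧
      ∀ v, V t S v → χ (move a (γ i) v) = c i

/-- the active letters for the second part -/
def phi (t s : Finset (Fin D) → Λ) : Finset (Fin D) → Board D ι₁ Λ :=
  fun J y => if shape y = ∅ then s J else t (J ∪ shape y)

theorem phi_injective (t : Finset (Fin D) → Λ) :
    Function.Injective (phi (ι₁ := ι₁) t) := by
  intro s s' h
  funext J
  have h1 := congrFun (congrFun h J) (fun _ => none)
  have h2 : shape (fun _ => none : Cell D ι₁) = ∅ := by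
    rw [Finset.eq_empty_iff_forall_notMem]
    intro i hi
    obtain ⟨y, hy⟩ := mem_shape.1 hi
    simp at hy
  unfold phi at h1
  rwa [if_pos h2, if_pos h2] at h1

theorem up_top {t v : Finset (Fin D) → Λ} {e : ℕ} (h : ∀ J, e < #J → v J = t J) (γ : Set ι₁)
    (J : Finset (Fin D)) (hJ : e < #J) (y : Cell D ι₁) : up t v γ J y = t (J ∪ shape y) := by
  unfold up
  split_ifs
  · exact h _ (lt_of_lt_of_le hJ (Finset.card_le_card Finset.subset_union_left))
  · rfl

theorem up_level {t v s : Finset (Fin D) → Λ} {e : ℕ} (h : ∀ J, e < #J → v J = t J)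
    (hs : ∀ J, #J = e → v J = s J) (γ : Set ι₁)
    (J : Finset (Fin D)) (hJ : #J = e) : up t v γ J = phi (ι₁ := ι₁) t s J := by
  classical
  funext y
  unfold phi
  split_ifs with h0
  · unfold up
    rw [if_pos ⟨by rw [h0]; exact Finset.disjoint_empty_right _, In_of_shape h0⟩, h0,
      Finset.union_empty, hs J hJ]
  · unfold up
    split_ifs with h1
    · refine h _ ?_
      rw [Finset.card_union_of_disjoint h1.1]
      have : 0 < #(shape y) := Finset.card_pos.2 (Finset.nonempty_iff_ne_empty.2 h0)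
      omega
    · rfl

/-- one step of the colour focusing argument -/
theorem fan_step [Finite Λ] [Finite κ] (t : Finset (Fin D) → Λ)
    (S : ℕ → Set (Finset (Fin D) → Λ)) (e₀ : ℕ) (s₁ : Finset (Fin D) → Λ) (hs₁ : s₁ ∈ S e₀)
    (hmin : ∀ e, 1 ≤ e → e < e₀ → S e = ∅) (he₀ : 1 ≤ e₀) (he₀' : e₀ ≤ D)
    (IH : ∀ (Λ' κ' : Type) [Finite Λ'] [Finite κ'] (t' : Finset (Fin D) → Λ')
      (S' : ℕ → Set (Finset (Fin D) → Λ')), (∀ e, e₀ < e → e ≤ D → (S' e).ncard = (S e).ncard) →
      (S' e₀).ncard < (S e₀).ncard →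
      ∃ (ι : Type) (_ : Finite ι), ∀ χ : Board D ι Λ' → κ', Mono t' S' χ)
    (k : ℕ) (ι₁ : Type) [Finite ι₁] (h : ∀ χ : Board D ι₁ Λ → κ, Mono t S χ ∨ Fan t S k χ) :
    ∃ (ι : Type) (_ : Finite ι), ∀ χ : Board D ι Λ → κ, Mono t S χ ∨ Fan t S (k + 1) χ := by
  classical
  set v₁ : Finset (Fin D) → Λ := fun J => if #J = e₀ then s₁ J else t J with hv₁
  have hv₁1 : ∀ J, e₀ < #J → v₁ J = t J := fun J hJ => by
    simp only [hv₁]; rw [if_neg (by omega)]
  have hv₁2 : ∀ J, #J = e₀ → v₁ J = s₁ J := fun J hJ => by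
    simp only [hv₁]; rw [if_pos hJ]
  set t' : Finset (Fin D) → Board D ι₁ Λ := up t v₁ ∅ with ht'
  set S' : ℕ → Set (Finset (Fin D) → Board D ι₁ Λ) := fun e =>
    if e₀ < e then phi t '' S e else if e = e₀ then phi t '' (S e₀ \ {s₁}) else Set.univ with hS'
  have hSfin : (S e₀).Finite := Set.toFinite _
  obtain ⟨ι₂, hι₂, hmono⟩ := IH (Board D ι₁ Λ) (Board D ι₁ Λ → κ) t' S' (by
      intro e he _
      simp only [hS']
      rw [if_pos he, Set.ncard_image_of_injective _ (phi_injective t)]) (by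
      simp only [hS']
      rw [if_neg (lt_irrefl _), if_pos trivial, Set.ncard_image_of_injective _ (phi_injective t)]
      exact Set.ncard_diff_singleton_lt_of_mem hs₁ hSfin)
  refine ⟨ι₁ ⊕ ι₂, inferInstance, fun χ => ?_⟩
  obtain ⟨W, Γ, hΓ, hW, hP⟩ := hmono fun W B => χ (glue B W)
  set P : Board D ι₁ Λ → κ := fun B => χ (glue B W) with hPdef
  -- all the directions from the first part have the same pattern
  have key : ∀ v, V t S v → ∀ (γ : Set ι₁) (B : Board D ι₁ Λ),
      χ (glue B (move W Γ (up t v γ))) = P B := by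
    intro v hv γ
    obtain ⟨e, he1, heD, hve, s, hs, hvs⟩ := hv
    have hee : e₀ ≤ e := by
      by_contra hlt
      rw [hmin e he1 (by omega)] at hs
      exact hs
    have htop : ∀ J : Finset (Fin D), e < #J → up t v γ J = t' J := by
      intro J hJ
      funext y
      rw [up_top hve γ J hJ y, ht', up_top hv₁1 ∅ J (by omega) y]
    -- directions in the system `t'`, `S'`
    have hV : ∀ v', V t' S' v' → ∀ B, χ (glue B (move W Γ v')) = P B := fun v' hv' B =>
      congrFun (hP v' hv') B
    -- directions which are `t'` on the large shapes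
    have hlow : ∀ v' : Finset (Fin D) → Board D ι₁ Λ, (∀ J, e₀ ≤ #J → v' J = t' J) →
        ∀ B, χ (glue B (move W Γ v')) = P B := by
      intro v' hv' B
      by_cases hall : ∀ J, J.Nonempty → v' J = t' J
      · rw [move_self W Γ v' fun x hx => by rw [hW x hx, hall _ hx.1]]
      · push Not at hall
        obtain ⟨J₀, hJ₀, hne⟩ := hall
        have hex : ∃ n : ℕ, ∃ J : Finset (Fin D), J.Nonempty ∧ v' J ≠ t' J ∧ #J = n :=
          ⟨_, J₀, hJ₀, hne, rfl⟩
        have hbd : ∀ n, (∃ J : Finset (Fin D), J.Nonempty ∧ v' J ≠ t' J ∧ #J = n) → n ≤ D := by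
          rintro n ⟨J, -, -, rfl⟩
          exact (Finset.card_le_univ J).trans (by rw [Fintype.card_fin])
        have hmax := Nat.findGreatest_spec (P := fun n => ∃ J : Finset (Fin D),
          J.Nonempty ∧ v' J ≠ t' J ∧ #J = n) (hbd _ ⟨J₀, hJ₀, hne, rfl⟩) ⟨J₀, hJ₀, hne, rfl⟩
        set m := Nat.findGreatest (fun n => ∃ J : Finset (Fin D),
          J.Nonempty ∧ v' J ≠ t' J ∧ #J = n) D with hm
        obtain ⟨J₁, h1, h2, h3⟩ := hmax
        have hm1 : 1 ≤ m := by
          rw [← h3]; exact Finset.card_pos.2 h1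
        have hmlt : m < e₀ := by
          by_contra hge
          exact h2 (hv' J₁ (by omega))
        refine hV v' ⟨m, hm1, Nat.findGreatest_le D, ?_, v', ?_, fun J _ => rfl⟩ B
        · intro J hJ
          by_contra hne'
          have hJD : #J ≤ D := hbd _ ⟨J, Finset.card_pos.1 (by omega), hne', rfl⟩
          exact absurd (Nat.le_findGreatest (P := fun n => ∃ J : Finset (Fin D),
            J.Nonempty ∧ v' J ≠ t' J ∧ #J = n) hJD
            ⟨J, Finset.card_pos.1 (by omega), hne', rfl⟩) (not_le.2 hJ)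
        · simp only [hS']
          rw [if_neg (by omega), if_neg (by omega)]
          exact Set.mem_univ _
    rcases hee.lt_or_eq with hlt | rfl
    · refine hV _ ⟨e, he1, heD, htop, phi t s, ?_, fun J hJ => up_level hve hvs γ J hJ⟩
      simp only [hS']
      rw [if_pos hlt]
      exact ⟨s, hs, rfl⟩
    · by_cases hss : s = s₁
      · refine hlow _ ?_
        intro J hJ
        rcases hJ.lt_or_eq with h1 | h1
        · exact htop J h1
        · rw [up_level hve hvs γ J h1.symm, ht', up_level hv₁1 hv₁2 ∅ J h1.symm, hss]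
      · refine hV _ ⟨e₀, he1, heD, htop, phi t s, ?_, fun J hJ => up_level hve hvs γ J hJ⟩
        simp only [hS']
        rw [if_neg (lt_irrefl _), if_pos trivial]
        exact ⟨s, ⟨hs, hss⟩, rfl⟩
  -- transfer of a monochromatic configuration for `P`
  have hfst : ∀ (a : Board D ι₁ Λ) (γ : Set ι₁), (∀ x, Live γ x → a x = t (shape x)) →
      ∀ x : Cell D (ι₁ ⊕ ι₂), Live (Sum.inl '' γ) x → glue a W x = t (shape x) := by
    intro a γ ha x hx
    have h1 : In γ (fst x) ∧ In (∅ : Set ι₂) (snd x) := by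
      rw [← In_iff, Set.image_empty, Set.union_empty]
      exact hx.2
    have h2 := shape_of_In_empty h1.2
    have h3 : shape x = shape (fst x) := by rw [shape_eq x, h2, Finset.empty_union]
    unfold glue
    rw [if_pos h2, h3]
    exact ha _ ⟨by rw [← h3]; exact hx.1, h1.1⟩
  rcases h P with ⟨a, γ, hγ, ha, hc⟩ | ⟨a, γ, c, hcinj, hγ⟩
  · left
    refine ⟨glue a W, Sum.inl '' γ, hγ.image _, hfst a γ ha, fun v hv => ?_⟩
    rw [glue_move_left]
    exact hc v hv
  · by_cases hc0 : ∃ i, c i = P a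
    · left
      obtain ⟨i, hi⟩ := hc0
      refine ⟨glue a W, Sum.inl '' (γ i), (hγ i).1.image _, hfst a (γ i) (hγ i).2.1,
        fun v hv => ?_⟩
      rw [glue_move_left]
      exact ((hγ i).2.2 v hv).trans hi
    · right
      push Not at hc0
      set a' := glue a (move W Γ (up t t ∅)) with ha'
      -- the base
      have hbase : ∀ (γ' : Set ι₁), (∀ x, Live γ' x → a x = t (shape x)) →
          ∀ x : Cell D (ι₁ ⊕ ι₂), Live (Sum.inl '' γ' ∪ Sum.inr '' Γ) x → a' x = t (shape x) := by
        intro γ' ha1 x hx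
        have h1 := (In_iff γ' Γ x).1 hx.2
        rw [ha']
        by_cases h0 : shape (snd x) = ∅
        · have h3 : shape x = shape (fst x) := by rw [shape_eq x, h0, Finset.empty_union]
          rw [glue, if_pos h0, h3]
          exact ha1 _ ⟨by rw [← h3]; exact hx.1, h1.1⟩
        · rw [glue, if_neg h0, move, if_pos ⟨Finset.nonempty_iff_ne_empty.2 h0, h1.2⟩, up_self,
            ← shape_eq]
      refine ⟨a', Fin.cons (Sum.inr '' Γ) fun i => Sum.inl '' (γ i) ∪ Sum.inr '' Γ,
        Fin.cons (P a) c, ?_, ?_⟩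
      · rw [Fin.cons_injective_iff]
        refine ⟨?_, hcinj⟩
        rintro ⟨i, hi⟩
        exact hc0 i hi
      · intro i
        refine Fin.cases ?_ (fun i => ?_) i
        · simp only [Fin.cons_zero]
          refine ⟨hΓ.image _, ?_, ?_⟩
          · have := hbase ∅ (fun x hx => absurd hx (not_live_empty x))
            rw [Set.image_empty, Set.empty_union] at this
            exact this
          · intro v hv
            rw [ha', glue_move_right, key v hv]
        · simp only [Fin.cons_succ]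
          refine ⟨((hγ i).1.image _).inl, hbase _ (hγ i).2.1, ?_⟩
          intro v hv
          rw [ha', glue_move, key v hv]
          exact (hγ i).2.2 v hv

/-- the weight of a system -/
noncomputable def weight (S : ℕ → Set (Finset (Fin D) → Λ)) : Lex (Fin D → ℕ) :=
  toLex fun i => (S (D - i)).ncard

/-- **Polynomial Hales-Jewett theorem** for systems of directions. -/
theorem pet (D : ℕ) (w : Lex (Fin D → ℕ)) : ∀ (Λ κ : Type) [Finite Λ] [Finite κ]
    (t : Finset (Fin D) → Λ) (S : ℕ → Set (Finset (Fin D) → Λ)), weight S = w →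
    ∃ (ι : Type) (_ : Finite ι), ∀ χ : Board D ι Λ → κ, Mono t S χ := by
  classical
  induction w using WellFoundedLT.induction with
  | ind w IH =>
  intro Λ κ _ _ t S hw
  by_cases hex : ∃ e, 1 ≤ e ∧ e ≤ D ∧ (S e).Nonempty
  · -- the least active level
    obtain ⟨he1, heD, s₁, hs₁⟩ := Nat.find_spec hex
    set e₀ := Nat.find hex with he₀
    have hmin : ∀ e, 1 ≤ e → e < e₀ → S e = ∅ := by
      intro e h1 h2
      by_contra hne
      exact Nat.find_min hex h2 ⟨h1, by omega, Set.nonempty_iff_ne_empty.2 hne⟩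
    have hfan : ∀ k, ∃ (ι : Type) (_ : Finite ι), ∀ χ : Board D ι Λ → κ,
        Mono t S χ ∨ Fan t S k χ := by
      intro k
      induction k with
      | zero =>
        refine ⟨Unit, inferInstance, fun χ => Or.inr ⟨fun x => t (shape x), Fin.elim0, Fin.elim0,
          fun i => i.elim0, fun i => i.elim0⟩⟩
      | succ k ih =>
        obtain ⟨ι, hι, h⟩ := ih
        refine fan_step t S e₀ s₁ hs₁ hmin he1 heD ?_ k ι h
        intro Λ' κ' _ _ t' S' h1 h2
        refine IH (weight S') ?_ Λ' κ' t' S' rfl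
        rw [← hw]
        refine ⟨⟨D - e₀, by omega⟩, fun j hj => ?_, ?_⟩
        · have hj' : (j : ℕ) < D - e₀ := hj
          exact h1 (D - j) (by omega) (by omega)
        · change (S' (D - (D - e₀))).ncard < (S (D - (D - e₀))).ncard
          rw [Nat.sub_sub_self heD]
          exact h2
    obtain ⟨ι, hι, h⟩ := hfan (Nat.card κ + 1)
    refine ⟨ι, hι, fun χ => ?_⟩
    rcases h χ with h1 | ⟨a, γ, c, hinj, -⟩
    · exact h1
    · exfalso
      have := Nat.card_le_card_of_injective c hinj
      rw [Nat.card_fin] at this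
      omega
  · -- no directions
    refine ⟨Unit, inferInstance, fun χ => ⟨fun x => t (shape x), Set.univ, ⟨(), trivial⟩,
      fun x _ => rfl, ?_⟩⟩
    rintro v ⟨e, h1, h2, -, s, hs, -⟩
    exact absurd ⟨e, h1, h2, s, hs⟩ hex

end Pool.Agent.Y613.PJ
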